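import Mathlib

/-!
The dimension of the set of fast times of a closed curve, from the fast times of its arcs.
-/

set_option autoImplicit false

open MeasureTheory Filter Topology
open scoped ENNReal

namespace Pool.Agent.Y977.LGF

/-- curves with their natural times -/
abbrev CT : Type := C(unitInterval, ℂ) × ℝ

/-- The open unit square. -/
def sq : Set ℂ := {z | 0 < z.re ∧ z.re < 1 ∧ 0 < z.im ∧ z.im < 1}

/-- The periodic extension of a closed curve. -/
noncomputable def per (c : C(unitInterval, ℂ)) (t : ℝ) : ℂ :=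
  c ⟨Int.fract t, Int.fract_nonneg t, (Int.fract_lt_one t).le⟩

/-- The arc of `p` between the times `u < v` is an arc of `q`, translated by `z`, with the same
natural time. -/
def SegRel (p q : CT) (z : ℂ) (u v : ℝ) : Prop :=
  ∃ u' v' : ℝ, 0 ≤ u' ∧ u' ≤ v' ∧ v' ≤ 1 ∧ p.2 * (v - u) = q.2 * (v' - u') ∧
    ∀ s : ℝ, 0 ≤ s → s ≤ 1 → per p.1 (u + s * (v - u)) =
      z + Set.IccExtend (zero_le_one : (0 : ℝ) ≤ 1) q.1 (u' + s * (v' - u'))

/-- Every time at which the closed curve is in the open square is in the interior of an arc which is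
a translate of an arc of an element of `G`, with the same natural time. -/
def LocG (G : Set CT) (p : CT) : Prop := ∀ t0 : ℝ, 1 ≤ t0 → t0 < 2 → per p.1 t0 ∈ sq →
  ∃ (u v : ℝ) (z : ℂ) (q : CT), 0 < u ∧ u < t0 ∧ t0 < v ∧ v < u + 1 ∧ q ∈ G ∧ SegRel p q z u v ∧
    ∃ s, u < s ∧ s < v ∧ per p.1 s ≠ per p.1 u

/-- Fast times. -/
def Ft (θ : ℝ) (p : CT) : Set unitInterval :=
  {u | ∃ᶠ h : ℝ in 𝓝[>] 0, ∃ v : unitInterval, p.2 * |(v : ℝ) - u| ≤ h ∧
    θ * (h ^ (4/7 : ℝ) * Real.log (1 / h) ^ (3/7 : ℝ)) ≤ dist (p.1 v) (p.1 u)}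

/-- Properties of the exploration paths. -/
def FG (c C θ0 : ℝ) : Set CT :=
  {q | 0 < q.2 ∧ (∀ E : Set unitInterval, dimH (q.1 '' E) = 7 / 4 * dimH E) ∧
    ∀ θ : ℝ, 0 < θ → θ ≤ θ0 → dimH (Ft θ q) ≤ ENNReal.ofReal (1 - c * θ ^ (7/3 : ℝ)) ∧
      ∀ s t : unitInterval, s < t → ENNReal.ofReal (1 - C * θ ^ (7/3 : ℝ)) ≤
        dimH (Set.Icc s t ∩ Ft θ q)}

/-- Affine parametrisation of arcs. -/
def S_ARC : Prop := ∀ (p q : CT) (z : ℂ) (u v : ℝ), p.1 0 = p.1 1 → 0 < q.2 → SegRel p q z u v →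
  u < v → (∃ s, u < s ∧ s < v ∧ per p.1 s ≠ per p.1 u) →
  ∃ (lam : ℝ → unitInterval) (ρ : ℝ), 0 < ρ ∧ 0 < p.2 ∧ p.2 = q.2 * ρ ∧
    (∀ s t : ℝ, s ∈ Set.Icc u v → t ∈ Set.Icc u v → (lam t : ℝ) - lam s = ρ * (t - s)) ∧
    ∀ t ∈ Set.Icc u v, per p.1 t = z + q.1 (lam t)

/-- Countable cover by arcs. -/
def S_COV : Prop := ∀ (G : Set CT) (p : CT), p.1 0 = p.1 1 → (∃ t, p.1 t ∈ sq) → LocG G p →
  ∃ (u v : ℕ → ℝ) (z : ℕ → ℂ) (q : ℕ → CT),
    (∀ i, 0 < u i ∧ u i < v i ∧ v i < u i + 1 ∧ q i ∈ G ∧ SegRel p (q i) (z i) (u i) (v i) ∧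
      ∃ s, u i < s ∧ s < v i ∧ per p.1 s ≠ per p.1 (u i)) ∧
    ∀ t : ℝ, 1 ≤ t → t < 2 → per p.1 t ∈ sq → ∃ i, u i < t ∧ t < v i

/-- The dimension of the set of fast times. -/
def S_FAST : Prop := ∀ (c C θ0 : ℝ) (G : Set CT) (p : CT), G ⊆ FG c C θ0 →
  p.1 0 = p.1 1 → (∃ t, p.1 t ∈ sq) → volume {t : unitInterval | p.1 t ∉ sq} = 0 → LocG G p →
  ∀ θ : ℝ, 0 < θ → θ ≤ θ0 → ∀ s t : unitInterval, s < t →
    ENNReal.ofReal (1 - C * θ ^ (7/3 : ℝ)) ≤
      dimH {u | u ∈ Set.Icc s t ∧ p.1 u ∈ sq ∧ u ∈ Ft θ p} ∧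
    dimH {u | u ∈ Set.Icc s t ∧ p.1 u ∈ sq ∧ u ∈ Ft θ p} ≤ ENNReal.ofReal (1 - c * θ ^ (7/3 : ℝ))

/-- The periodic extension at the times `v + 1`. -/
theorem per_add_one {c : C(unitInterval, ℂ)} (hc : c 0 = c 1) (v : unitInterval) :
    per c ((v : ℝ) + 1) = c v := by
  unfold per
  rcases lt_or_eq_of_le v.2.2 with h | h
  · congr 1
    apply Subtype.ext
    change Int.fract ((v : ℝ) + 1) = v
    rw [Int.fract_add_one]
    exact Int.fract_eq_self.2 ⟨v.2.1, h⟩
  · have h1 : v = 1 := Subtype.ext h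
    rw [h1, ← hc]
    congr 1
    apply Subtype.ext
    change Int.fract (((1 : unitInterval) : ℝ) + 1) = ((0 : unitInterval) : ℝ)
    rw [Int.fract_add_one]
    simp

section arc

variable {p q : CT} {z : ℂ} {u v : ℝ} {lam : ℝ → unitInterval} {ρ : ℝ}

/-- distances on arcs -/
theorem arc_dist (hc : p.1 0 = p.1 1) (hm : ∀ t ∈ Set.Icc u v, per p.1 t = z + q.1 (lam t))
    {w w' : unitInterval} (h1 : u < (w : ℝ) + 1) (h2 : (w : ℝ) + 1 < v) (h3 : u < (w' : ℝ) + 1)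
    (h4 : (w' : ℝ) + 1 < v) :
    dist (p.1 w) (p.1 w') = dist (q.1 (lam (w + 1))) (q.1 (lam (w' + 1))) := by
  rw [← per_add_one hc w, ← per_add_one hc w', hm _ ⟨h1.le, h2.le⟩, hm _ ⟨h3.le, h4.le⟩,
    dist_add_left]

/-- fast times of the curve are fast times of the arc -/
theorem ft_arc (hc : p.1 0 = p.1 1) (hq : 0 < q.2) (hρ : 0 < ρ) (hpq : p.2 = q.2 * ρ)
    (hl : ∀ s t : ℝ, s ∈ Set.Icc u v → t ∈ Set.Icc u v → (lam t : ℝ) - lam s = ρ * (t - s))
    (hm : ∀ t ∈ Set.Icc u v, per p.1 t = z + q.1 (lam t)) {θ : ℝ} {w : unitInterval}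
    (h1 : u < (w : ℝ) + 1) (h2 : (w : ℝ) + 1 < v) (hw : w ∈ Ft θ p) : lam (w + 1) ∈ Ft θ q := by
  have hp : 0 < p.2 := by
    rw [hpq]
    positivity
  set η := min ((w : ℝ) + 1 - u) (v - (w + 1)) with hη
  have hη0 : 0 < η := lt_min (by linarith) (by linarith)
  refine Filter.Frequently.mp hw ?_
  filter_upwards [Ioo_mem_nhdsGT (show (0 : ℝ) < p.2 * η by positivity)] with h hh
  rintro ⟨y, hy1, hy2⟩
  have h3 : |(y : ℝ) - w| < η := by
    have h4 : p.2 * |(y : ℝ) - w| < p.2 * η := lt_of_le_of_lt hy1 hh.2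
    exact lt_of_mul_lt_mul_left h4 hp.le
  rw [abs_lt] at h3
  have h5 : η ≤ (w : ℝ) + 1 - u := min_le_left _ _
  have h6 : η ≤ v - (w + 1) := min_le_right _ _
  have h7 : u < (y : ℝ) + 1 := by linarith
  have h8 : (y : ℝ) + 1 < v := by linarith
  refine ⟨lam (y + 1), ?_, ?_⟩
  · rw [hl _ _ ⟨h1.le, h2.le⟩ ⟨h7.le, h8.le⟩]
    have h9 : (y : ℝ) + 1 - (w + 1) = y - w := by ring
    rw [h9, abs_mul, abs_of_pos hρ, ← mul_assoc, ← hpq]
    exact hy1
  · rw [← arc_dist hc hm h7 h8 h1 h2]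
    exact hy2

/-- fast times of the arc are fast times of the curve -/
theorem arc_ft (hc : p.1 0 = p.1 1) (hq : 0 < q.2) (hρ : 0 < ρ) (hpq : p.2 = q.2 * ρ)
    (hl : ∀ s t : ℝ, s ∈ Set.Icc u v → t ∈ Set.Icc u v → (lam t : ℝ) - lam s = ρ * (t - s))
    (hm : ∀ t ∈ Set.Icc u v, per p.1 t = z + q.1 (lam t)) {θ : ℝ} {w : unitInterval}
    (h1 : u < (w : ℝ) + 1) (h2 : (w : ℝ) + 1 < v) (h0 : 0 < (w : ℝ)) (h01 : (w : ℝ) < 1)
    (hw : lam (w + 1) ∈ Ft θ q) : w ∈ Ft θ p := by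
  have hp : 0 < p.2 := by
    rw [hpq]
    positivity
  set η := min (min ((w : ℝ) + 1 - u) (v - (w + 1))) (min (w : ℝ) (1 - w)) with hη
  have hη0 : 0 < η := lt_min (lt_min (by linarith) (by linarith)) (lt_min h0 (by linarith))
  have g1 : η ≤ (w : ℝ) + 1 - u := (min_le_left _ _).trans (min_le_left _ _)
  have g2 : η ≤ v - (w + 1) := (min_le_left _ _).trans (min_le_right _ _)
  have g3 : η ≤ w := (min_le_right _ _).trans (min_le_left _ _)
  have g4 : η ≤ 1 - w := (min_le_right _ _).trans (min_le_right _ _)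
  refine Filter.Frequently.mp hw ?_
  filter_upwards [Ioo_mem_nhdsGT (show (0 : ℝ) < q.2 * (ρ * η) by positivity)] with h hh
  rintro ⟨y, hy1, hy2⟩
  have h3 : |(y : ℝ) - lam (w + 1)| < ρ * η := by
    have h4 : q.2 * |(y : ℝ) - lam (w + 1)| < q.2 * (ρ * η) := lt_of_le_of_lt hy1 hh.2
    exact lt_of_mul_lt_mul_left h4 hq.le
  set x : ℝ := w + ((y : ℝ) - lam (w + 1)) / ρ with hx
  have hxw : ρ * (x - w) = y - lam (w + 1) := by
    rw [hx]
    field_simp
    ring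
  have h4 : |x - w| < η := by
    rw [← hxw, abs_mul, abs_of_pos hρ] at h3
    exact lt_of_mul_lt_mul_left h3 hρ.le
  have h4' := abs_lt.1 h4
  have h5 : x ∈ unitInterval := ⟨by linarith, by linarith⟩
  have h7 : u < x + 1 := by linarith
  have h8 : x + 1 < v := by linarith
  have h9 : lam (x + 1) = y := by
    apply Subtype.ext
    have h10 := hl _ _ ⟨h1.le, h2.le⟩ ⟨h7.le, h8.le⟩
    have h11 : x + 1 - ((w : ℝ) + 1) = x - w := by ring
    rw [h11, hxw] at h10
    linarith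
  refine ⟨⟨x, h5⟩, ?_, ?_⟩
  · change p.2 * |x - w| ≤ h
    have h12 : p.2 * |x - w| = q.2 * |ρ * (x - w)| := by
      rw [abs_mul, abs_of_pos hρ, hpq]
      ring
    rw [h12, hxw]
    exact hy1
  · rw [arc_dist (w := ⟨x, h5⟩) (w' := w) hc hm h7 h8 h1 h2]
    change _ ≤ dist (q.1 (lam (x + 1))) _
    rw [h9]
    exact hy2

end arc

/-- an affine map from the interval to the line does not change dimensions -/
theorem dim_affine {ρ : ℝ} (hρ : 0 < ρ) (b : ℝ) (S : Set unitInterval) :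
    dimH ((fun w : unitInterval => ρ * (w : ℝ) + b) '' S) = dimH S := by
  have hd : ∀ w w' : unitInterval, dist (ρ * (w : ℝ) + b) (ρ * (w' : ℝ) + b) = ρ * dist w w' := by
    intro w w'
    rw [dist_add_right, Real.dist_eq, ← mul_sub, abs_mul, abs_of_pos hρ]
    rfl
  apply le_antisymm
  · refine LipschitzWith.dimH_image_le (K := ρ.toNNReal) (LipschitzWith.of_dist_le_mul ?_) S
    intro w w'
    rw [hd, Real.coe_toNNReal _ hρ.le]
  · refine AntilipschitzWith.le_dimH_image (K := (ρ⁻¹).toNNReal)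
      (AntilipschitzWith.of_le_mul_dist ?_) S
    intro w w'
    rw [hd, Real.coe_toNNReal _ (inv_pos.2 hρ).le, ← mul_assoc, inv_mul_cancel₀ hρ.ne', one_mul]

theorem dim_val (S : Set unitInterval) : dimH ((fun w : unitInterval => (w : ℝ)) '' S) = dimH S :=
  Isometry.dimH_image isometry_subtype_coe S

/-- the dimension of the set of fast times -/
theorem fast (hA : S_ARC) (hC : S_COV) : S_FAST := by
  intro c C θ0 G p hG hc hsq hvol hloc θ hθ hθ0 s t hst
  obtain ⟨u, v, z, q, hi, hcov⟩ := hC G p hc hsq hloc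
  have harc : ∀ i, ∃ (lam : ℝ → unitInterval) (ρ : ℝ), 0 < ρ ∧ 0 < p.2 ∧ p.2 = (q i).2 * ρ ∧
      (∀ s t : ℝ, s ∈ Set.Icc (u i) (v i) → t ∈ Set.Icc (u i) (v i) →
        (lam t : ℝ) - lam s = ρ * (t - s)) ∧
      ∀ t ∈ Set.Icc (u i) (v i), per p.1 t = z i + (q i).1 (lam t) := fun i =>
    hA p (q i) (z i) (u i) (v i) hc (hG (hi i).2.2.2.1).1 (hi i).2.2.2.2.1 (hi i).2.1
      (hi i).2.2.2.2.2
  choose lam ρ hρ hp hpq hl hm using harc
  constructor
  · -- the lower bound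
    obtain ⟨w0, hw0, hw0sq⟩ : ∃ w0 : unitInterval, w0 ∈ Set.Ioo s t ∧ p.1 w0 ∈ sq := by
      by_contra hcon
      push Not at hcon
      have h1 : Set.Ioo s t ⊆ {t : unitInterval | p.1 t ∉ sq} := fun x hx => hcon x hx
      have h2 := measure_mono_null h1 hvol
      rw [unitInterval.volume_Ioo, ENNReal.ofReal_eq_zero] at h2
      have h3 : (s : ℝ) < t := hst
      linarith
    have hw01 : (w0 : ℝ) < 1 := lt_of_lt_of_le (show (w0 : ℝ) < t from hw0.2) t.2.2
    have hw00 : 0 < (w0 : ℝ) := lt_of_le_of_lt s.2.1 (show (s : ℝ) < w0 from hw0.1)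
    obtain ⟨i, hi1, hi2⟩ := hcov ((w0 : ℝ) + 1) (by linarith) (by linarith) (by
      rw [per_add_one hc]
      exact hw0sq)
    have hopen : IsOpen {w : unitInterval | p.1 w ∈ sq} := by
      have h1 : IsOpen sq := by
        have h2 : sq = {z : ℂ | 0 < z.re} ∩ ({z : ℂ | z.re < 1} ∩ ({z : ℂ | 0 < z.im} ∩
            {z : ℂ | z.im < 1})) := by
          ext z
          simp [sq]
        rw [h2]
        exact (isOpen_lt continuous_const Complex.continuous_re).inter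
          ((isOpen_lt Complex.continuous_re continuous_const).inter
          ((isOpen_lt continuous_const Complex.continuous_im).inter
          (isOpen_lt Complex.continuous_im continuous_const)))
      exact h1.preimage p.1.continuous
    obtain ⟨ε, hε, hball⟩ := Metric.isOpen_iff.1 hopen w0 hw0sq
    set η := min (min ε (min ((w0 : ℝ) - s) (t - w0)))
      (min ((w0 : ℝ) + 1 - u i) (v i - (w0 + 1))) / 2 with hη
    have g0 : (s : ℝ) < w0 := hw0.1
    have g0' : (w0 : ℝ) < t := hw0.2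
    have hη0 : 0 < η := by
      rw [hη]
      apply half_pos
      exact lt_min (lt_min hε (lt_min (by linarith) (by linarith)))
        (lt_min (by linarith) (by linarith))
    have g1 : η < ε := by
      have : 2 * η ≤ ε := by
        rw [hη]
        have := (min_le_left (min ε (min ((w0 : ℝ) - s) (t - w0)))
          (min ((w0 : ℝ) + 1 - u i) (v i - (w0 + 1)))).trans (min_le_left _ _)
        linarith
      linarith
    have g2 : η < (w0 : ℝ) - s := by
      have : 2 * η ≤ (w0 : ℝ) - s := by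
        rw [hη]
        have := (min_le_left (min ε (min ((w0 : ℝ) - s) (t - w0)))
          (min ((w0 : ℝ) + 1 - u i) (v i - (w0 + 1)))).trans
          ((min_le_right _ _).trans (min_le_left _ _))
        linarith
      linarith
    have g3 : η < t - w0 := by
      have : 2 * η ≤ t - w0 := by
        rw [hη]
        have := (min_le_left (min ε (min ((w0 : ℝ) - s) (t - w0)))
          (min ((w0 : ℝ) + 1 - u i) (v i - (w0 + 1)))).trans
          ((min_le_right _ _).trans (min_le_right _ _))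
        linarith
      linarith
    have g4 : η < (w0 : ℝ) + 1 - u i := by
      have : 2 * η ≤ (w0 : ℝ) + 1 - u i := by
        rw [hη]
        have := (min_le_right (min ε (min ((w0 : ℝ) - s) (t - w0)))
          (min ((w0 : ℝ) + 1 - u i) (v i - (w0 + 1)))).trans (min_le_left _ _)
        linarith
      linarith
    have g5 : η < v i - (w0 + 1) := by
      have : 2 * η ≤ v i - (w0 + 1) := by
        rw [hη]
        have := (min_le_right (min ε (min ((w0 : ℝ) - s) (t - w0)))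
          (min ((w0 : ℝ) + 1 - u i) (v i - (w0 + 1)))).trans (min_le_right _ _)
        linarith
      linarith
    -- the interval
    have hIa : (w0 : ℝ) - η + 1 ∈ Set.Icc (u i) (v i) := ⟨by linarith, by linarith⟩
    have hIb : (w0 : ℝ) + η + 1 ∈ Set.Icc (u i) (v i) := ⟨by linarith, by linarith⟩
    have hab : lam i ((w0 : ℝ) - η + 1) < lam i ((w0 : ℝ) + η + 1) := by
      have h1 := hl i _ _ hIa hIb
      have h2 : 0 < ρ i * ((w0 : ℝ) + η + 1 - ((w0 : ℝ) - η + 1)) :=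
        mul_pos (hρ i) (by linarith)
      change (lam i ((w0 : ℝ) - η + 1) : ℝ) < lam i ((w0 : ℝ) + η + 1)
      linarith
    have hlow := ((hG (hi i).2.2.2.1).2.2 θ hθ hθ0).2 _ _ hab
    refine hlow.trans ?_
    rw [← dim_val, ← dim_affine (hρ i) ((lam i ((w0 : ℝ) - η + 1) : ℝ) - ρ i * ((w0 : ℝ) - η))
      {u | u ∈ Set.Icc s t ∧ p.1 u ∈ sq ∧ u ∈ Ft θ p}]
    apply dimH_mono
    rintro _ ⟨x, ⟨⟨hxa, hxb⟩, hxF⟩, rfl⟩
    have hxa' : (lam i ((w0 : ℝ) - η + 1) : ℝ) ≤ x := hxa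
    have hxb' : (x : ℝ) ≤ lam i ((w0 : ℝ) + η + 1) := hxb
    have hab2 := hl i _ _ hIa hIb
    set y : ℝ := w0 - η + ((x : ℝ) - lam i ((w0 : ℝ) - η + 1)) / ρ i with hy
    have hyx : ρ i * (y - (w0 - η)) = x - lam i ((w0 : ℝ) - η + 1) := by
      have := (hρ i).ne'
      rw [hy]
      field_simp
      ring
    have hy1 : (w0 : ℝ) - η ≤ y := by
      by_contra hcon
      push Not at hcon
      have : ρ i * (y - (w0 - η)) < 0 := mul_neg_of_pos_of_neg (hρ i) (by linarith)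
      linarith
    have hy2 : y ≤ w0 + η := by
      by_contra hcon
      push Not at hcon
      have : ρ i * (w0 + η - (w0 - η)) < ρ i * (y - (w0 - η)) :=
        mul_lt_mul_of_pos_left (by linarith) (hρ i)
      have h3 : ρ i * ((w0 : ℝ) + η + 1 - ((w0 : ℝ) - η + 1)) = ρ i * (w0 + η - (w0 - η)) := by
        ring
      linarith
    have hyI : y ∈ unitInterval := ⟨by linarith [s.2.1], by linarith [t.2.2]⟩
    have hlamy : lam i (y + 1) = x := by
      apply Subtype.ext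
      have h1 := hl i ((w0 : ℝ) - η + 1) (y + 1) hIa ⟨by linarith, by linarith⟩
      have h2 : y + 1 - ((w0 : ℝ) - η + 1) = y - (w0 - η) := by ring
      rw [h2, hyx] at h1
      linarith
    refine ⟨⟨y, hyI⟩, ⟨⟨?_, ?_⟩, ?_, ?_⟩, ?_⟩
    · change (s : ℝ) ≤ y
      linarith
    · change y ≤ t
      linarith
    · apply hball
      rw [Metric.mem_ball]
      change |y - w0| < ε
      rw [abs_lt]
      constructor <;> linarith
    · refine arc_ft hc (hG (hi i).2.2.2.1).1 (hρ i) (hpq i) (hl i) (hm i) (w := ⟨y, hyI⟩)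
        (by change u i < y + 1; linarith) (by change y + 1 < v i; linarith)
        (by change 0 < y; linarith [s.2.1]) (by change y < 1; linarith [t.2.2]) ?_
      change lam i (y + 1) ∈ _
      rw [hlamy]
      exact hxF
    · change ρ i * y + ((lam i ((w0 : ℝ) - η + 1) : ℝ) - ρ i * ((w0 : ℝ) - η)) = x
      linarith
  · -- the upper bound
    have hsub : {w | w ∈ Set.Icc s t ∧ p.1 w ∈ sq ∧ w ∈ Ft θ p} ⊆ {(1 : unitInterval)} ∪
        ⋃ i, {w : unitInterval | u i < (w : ℝ) + 1 ∧ (w : ℝ) + 1 < v i ∧ w ∈ Ft θ p} := by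
      rintro w ⟨-, hw1, hw2⟩
      rcases lt_or_eq_of_le w.2.2 with h | h
      · right
        obtain ⟨i, hi1, hi2⟩ := hcov ((w : ℝ) + 1) (by linarith [w.2.1]) (by linarith) (by
          rw [per_add_one hc]
          exact hw1)
        exact Set.mem_iUnion.2 ⟨i, hi1, hi2, hw2⟩
      · left
        exact Subtype.ext h
    refine (dimH_mono hsub).trans ?_
    rw [dimH_union, dimH_singleton, dimH_iUnion]
    refine max_le bot_le (iSup_le fun i => ?_)
    refine le_trans ?_ ((hG (hi i).2.2.2.1).2.2 θ hθ hθ0).1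
    rw [← dim_affine (hρ i) ((lam i (v i) : ℝ) - ρ i * (v i - 1)), ← dim_val (Ft θ (q i))]
    apply dimH_mono
    rintro _ ⟨w, ⟨h1, h2, h3⟩, rfl⟩
    refine ⟨lam i (w + 1), ft_arc hc (hG (hi i).2.2.2.1).1 (hρ i) (hpq i) (hl i) (hm i) h1 h2 h3, ?_⟩
    have h4 := hl i _ _ ⟨h1.le, h2.le⟩ ⟨(hi i).2.1.le, le_rfl⟩
    change (lam i (w + 1) : ℝ) = ρ i * (w : ℝ) + ((lam i (v i) : ℝ) - ρ i * (v i - 1))
    linarith

end Pool.Agent.Y977.LGF
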