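import Pool.Agent.Y995.LG.Stm2
import Pool.Agent.Y977.LGF.FastCore

/-!
The dimension of the set of fast times of the closed curve.
-/

set_option autoImplicit false

namespace Pool.Agent.Y977.LG

/-- FAST: the dimension of the set of fast times. -/
theorem fast (hA : Pool.Agent.Y995.LG.S_ARC) (hC : Pool.Agent.Y995.LG.S_COV) :
    Pool.Agent.Y995.LG.S_FAST :=
  Pool.Agent.Y977.LGF.fast hA hC

end Pool.Agent.Y977.LG
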